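import Pool.Agent.Helper56.NB.Defs

/-!
Block PO for MP_823891_al: prime annihilators, restriction and extension of modules without
uniform submodules along Ore-like ring maps.
-/

namespace Pool.Agent.Helper56.NB

open Pool.Agent.H35SD Pool.Agent.Helper56.SDD

universe u v

theorem exists_prime_part {C₀ Λ₀ V₀ : Type u} [CommRing C₀] [IsNoetherianRing C₀] [Ring Λ₀]
    [Algebra C₀ Λ₀] [AddCommGroup V₀] [Module Λ₀ V₀] [Nontrivial V₀] :
    ∃ (p : Ideal C₀) (W : Submodule Λ₀ V₀), p.IsPrime ∧ W ≠ ⊥ ∧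
      (∀ c ∈ p, ∀ w ∈ W, algebraMap C₀ Λ₀ c • w = 0) ∧
      ∀ c, c ∉ p → ∀ w ∈ W, algebraMap C₀ Λ₀ c • w = 0 → w = 0 := by
  let ann : V₀ → Ideal C₀ := fun v =>
    { carrier := {c | algebraMap C₀ Λ₀ c • v = 0}
      add_mem' := by
        intro a b ha hb
        change algebraMap C₀ Λ₀ (a + b) • v = 0
        rw [map_add, add_smul, ha, hb, add_zero]
      zero_mem' := by
        change algebraMap C₀ Λ₀ 0 • v = 0
        rw [map_zero, zero_smul]
      smul_mem' := by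
        intro c x hx
        change algebraMap C₀ Λ₀ (c * x) • v = 0
        rw [map_mul, mul_smul, hx, smul_zero] }
  have mann : ∀ (v : V₀) (c : C₀), c ∈ ann v ↔ algebraMap C₀ Λ₀ c • v = 0 := fun v c => Iff.rfl
  obtain ⟨v₁, hv₁⟩ := exists_ne (0 : V₀)
  obtain ⟨p, ⟨v₀, hv₀, rfl⟩, hmax⟩ := set_has_maximal_iff_noetherian.2
    (inferInstance : IsNoetherian C₀ C₀) {I : Submodule C₀ C₀ | ∃ v, v ≠ 0 ∧ ann v = I}
    ⟨_, v₁, hv₁, rfl⟩
  have hle : ∀ v, v ≠ 0 → ann v₀ ≤ ann v → ann v = ann v₀ := by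
    intro v hv h
    by_contra hne
    exact hmax (ann v) ⟨v, hv, rfl⟩ (lt_of_le_of_ne h (Ne.symm hne))
  let W : Submodule Λ₀ V₀ :=
    { carrier := {w | ∀ c ∈ ann v₀, algebraMap C₀ Λ₀ c • w = 0}
      add_mem' := by
        intro a b ha hb c hc
        rw [smul_add, ha c hc, hb c hc, add_zero]
      zero_mem' := by
        intro c _
        rw [smul_zero]
      smul_mem' := by
        intro l w hw c hc
        rw [smul_smul, Algebra.commutes, mul_smul, hw c hc, smul_zero] }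
  refine ⟨ann v₀, W, ?_, ?_, ?_, ?_⟩
  · refine Ideal.isPrime_iff.2 ⟨?_, ?_⟩
    · intro h
      have h1 : (1 : C₀) ∈ ann v₀ := by rw [h]; trivial
      rw [mann, map_one, one_smul] at h1
      exact hv₀ h1
    · intro a b hab
      by_cases hb : b ∈ ann v₀
      · exact Or.inr hb
      left
      have h1 : algebraMap C₀ Λ₀ b • v₀ ≠ 0 := hb
      have h2 : ann v₀ ≤ ann (algebraMap C₀ Λ₀ b • v₀) := by
        intro c hc
        rw [mann] at hc ⊢
        rw [smul_smul, Algebra.commutes, mul_smul, hc, smul_zero]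
      rw [← hle _ h1 h2, mann, smul_smul, ← map_mul]
      exact hab
  · intro h
    have h1 : v₀ ∈ W := fun c hc => hc
    rw [h, Submodule.mem_bot] at h1
    exact hv₀ h1
  · intro c hc w hw
    exact hw c hc
  · intro c hc w hw hcw
    by_contra hw0
    have h1 : ann v₀ ≤ ann w := fun c hc => hw c hc
    exact hc (by rw [← hle w hw0 h1, mann]; exact hcw)

theorem noUnif_restrict {Λ Λ' M : Type u} [Ring Λ] [Ring Λ'] (φ : Λ →+* Λ') [AddCommGroup M]
    [Module Λ' M] (D : Set Λ) (hmul : ∀ d ∈ D, ∀ d' ∈ D, d * d' ∈ D)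
    (hcen : ∀ d ∈ D, ∀ r : Λ', φ d * r = r * φ d)
    (hinj : ∀ d ∈ D, ∀ m : M, φ d • m = 0 → m = 0)
    (hD : ∀ r : Λ', ∃ d ∈ D, ∃ l : Λ, φ d * r = φ l) (h : NoUnif Λ' M) :
    letI : Module Λ M := Module.compHom M φ
    NoUnif Λ M := by
  letI : Module Λ M := Module.compHom M φ
  have act : ∀ (l : Λ) (m : M), l • m = φ l • m := fun l m => rfl
  intro V hV
  have key : ∀ v ∈ Submodule.span Λ' (V : Set M), ∃ d ∈ D, φ d • v ∈ V := by
    intro v hv
    induction hv using Submodule.span_induction with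
    | mem v hv =>
      obtain ⟨d, hd, -⟩ := hD 0
      exact ⟨d, hd, by rw [← act]; exact V.smul_mem d hv⟩
    | zero =>
      obtain ⟨d, hd, -⟩ := hD 0
      exact ⟨d, hd, by rw [smul_zero]; exact V.zero_mem⟩
    | add x y _ _ hx hy =>
      obtain ⟨d, hd, hdx⟩ := hx
      obtain ⟨e, he, hey⟩ := hy
      refine ⟨d * e, hmul d hd e he, ?_⟩
      rw [map_mul, smul_add]
      apply V.add_mem
      · rw [hcen d hd, mul_smul, ← act]
        exact V.smul_mem e hdx
      · rw [mul_smul, ← act]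
        exact V.smul_mem d hey
    | smul r x _ hx =>
      obtain ⟨d, hd, hdx⟩ := hx
      obtain ⟨e, he, l, hl⟩ := hD r
      refine ⟨e * d, hmul e he d hd, ?_⟩
      rw [map_mul, smul_smul, mul_assoc, hcen d hd, ← mul_assoc, hl, mul_smul, ← act]
      exact V.smul_mem l hdx
  have hV' : Submodule.span Λ' (V : Set M) ≠ ⊥ := by
    intro h0
    apply hV
    rw [eq_bot_iff]
    intro v hv
    have : v ∈ Submodule.span Λ' (V : Set M) := Submodule.subset_span hv
    rw [h0, Submodule.mem_bot] at this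
    rw [this]
    exact Submodule.zero_mem _
  obtain ⟨V₁, V₂, h1, h2, n1, n2, h12⟩ := h _ hV'
  let R : Submodule Λ' M → Submodule Λ M := fun U =>
    { carrier := {m | m ∈ V ∧ m ∈ U}
      add_mem' := fun ha hb => ⟨V.add_mem ha.1 hb.1, U.add_mem ha.2 hb.2⟩
      zero_mem' := ⟨V.zero_mem, U.zero_mem⟩
      smul_mem' := fun c x hx => ⟨V.smul_mem c hx.1, by
        rw [act]; exact U.smul_mem (φ c) hx.2⟩ }
  have hR : ∀ U : Submodule Λ' M, U ≤ Submodule.span Λ' (V : Set M) → U ≠ ⊥ → R U ≠ ⊥ := by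
    intro U hU hne h0
    obtain ⟨u, hu, hu0⟩ := U.exists_mem_ne_zero_of_ne_bot hne
    obtain ⟨d, hd, hdu⟩ := key u (hU hu)
    have h3 : φ d • u ∈ R U := ⟨hdu, U.smul_mem _ hu⟩
    rw [h0, Submodule.mem_bot] at h3
    exact hu0 (hinj d hd u h3)
  refine ⟨R V₁, R V₂, fun m hm => hm.1, fun m hm => hm.1, hR V₁ h1 n1, hR V₂ h2 n2, ?_⟩
  rw [eq_bot_iff]
  intro m hm
  have h3 : m ∈ V₁ ⊓ V₂ := ⟨hm.1.2, hm.2.2⟩
  rw [h12, Submodule.mem_bot] at h3
  rw [h3]
  exact Submodule.zero_mem _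

theorem noUnif_extend {Λ Λ' M W : Type u} [Ring Λ] [Ring Λ'] (φ : Λ →+* Λ') [AddCommGroup M]
    [Module Λ' M] [AddCommGroup W] [Module Λ W] (ι : W →+ M)
    (hι : ∀ (l : Λ) (w : W), ι (l • w) = φ l • ι w) (hιi : Function.Injective ι)
    (D : Set Λ) (hmul : ∀ d ∈ D, ∀ d' ∈ D, d * d' ∈ D)
    (hcen : ∀ d ∈ D, ∀ r : Λ', φ d * r = r * φ d)
    (hinj : ∀ d ∈ D, ∀ m : M, φ d • m = 0 → m = 0)
    (hD : ∀ r : Λ', ∃ d ∈ D, ∃ l : Λ, φ d * r = φ l)
    (hM : ∀ m : M, ∃ d ∈ D, ∃ w : W, φ d • m = ι w) (h : NoUnif Λ W) :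
    NoUnif Λ' M := by
  intro V hV
  -- the pull back
  let P : Submodule Λ W :=
    { carrier := {w | ι w ∈ V}
      add_mem' := by
        intro a b ha hb
        change ι (a + b) ∈ V
        rw [map_add]
        exact V.add_mem ha hb
      zero_mem' := by
        change ι 0 ∈ V
        rw [map_zero]
        exact V.zero_mem
      smul_mem' := by
        intro c x hx
        change ι (c • x) ∈ V
        rw [hι]
        exact V.smul_mem _ hx }
  have hP : P ≠ ⊥ := by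
    intro h0
    obtain ⟨m, hm, hm0⟩ := V.exists_mem_ne_zero_of_ne_bot hV
    obtain ⟨d, hd, w, hw⟩ := hM m
    have h1 : w ∈ P := by
      change ι w ∈ V
      rw [← hw]
      exact V.smul_mem _ hm
    rw [h0, Submodule.mem_bot] at h1
    rw [h1, map_zero] at hw
    exact hm0 (hinj d hd m hw)
  obtain ⟨W₁, W₂, h1, h2, n1, n2, h12⟩ := h P hP
  have key : ∀ U : Submodule Λ W, ∀ v ∈ Submodule.span Λ' (ι '' (U : Set W)),
      ∃ d ∈ D, ∃ u ∈ U, φ d • v = ι u := by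
    intro U v hv
    induction hv using Submodule.span_induction with
    | mem v hv =>
      obtain ⟨u, hu, rfl⟩ := hv
      obtain ⟨d, hd, -⟩ := hD 0
      exact ⟨d, hd, d • u, U.smul_mem d hu, by rw [hι]⟩
    | zero =>
      obtain ⟨d, hd, -⟩ := hD 0
      exact ⟨d, hd, 0, U.zero_mem, by rw [smul_zero, map_zero]⟩
    | add x y _ _ hx hy =>
      obtain ⟨d, hd, a, ha, hdx⟩ := hx
      obtain ⟨e, he, b, hb, hey⟩ := hy
      refine ⟨d * e, hmul d hd e he, e • a + d • b,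
        U.add_mem (U.smul_mem e ha) (U.smul_mem d hb), ?_⟩
      rw [map_mul, smul_add, map_add, hι, hι, ← hdx, ← hey, smul_smul, smul_smul, ← hcen d hd]
    | smul r x _ hx =>
      obtain ⟨d, hd, a, ha, hdx⟩ := hx
      obtain ⟨e, he, l, hl⟩ := hD r
      refine ⟨e * d, hmul e he d hd, l • a, U.smul_mem l ha, ?_⟩
      rw [map_mul, smul_smul, mul_assoc, hcen d hd, ← mul_assoc, hl, mul_smul, hdx, hι]
  have hne : ∀ U : Submodule Λ W, U ≠ ⊥ → Submodule.span Λ' (ι '' (U : Set W)) ≠ ⊥ := by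
    intro U hU h0
    obtain ⟨u, hu, hu0⟩ := U.exists_mem_ne_zero_of_ne_bot hU
    have h3 : ι u ∈ Submodule.span Λ' (ι '' (U : Set W)) :=
      Submodule.subset_span ⟨u, hu, rfl⟩
    rw [h0, Submodule.mem_bot] at h3
    exact hu0 (hιi (by rw [h3, map_zero]))
  have hle : ∀ U : Submodule Λ W, U ≤ P → Submodule.span Λ' (ι '' (U : Set W)) ≤ V := by
    intro U hU
    rw [Submodule.span_le]
    rintro _ ⟨u, hu, rfl⟩
    exact hU hu
  refine ⟨_, _, hle W₁ h1, hle W₂ h2, hne W₁ n1, hne W₂ n2, ?_⟩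
  rw [eq_bot_iff]
  rintro v ⟨hv1, hv2⟩
  obtain ⟨d, hd, a, ha, hda⟩ := key W₁ v hv1
  obtain ⟨e, he, b, hb, heb⟩ := key W₂ v hv2
  have h3 : ι (e • a) = ι (d • b) := by
    rw [hι, hι, ← hda, ← heb, smul_smul, smul_smul, hcen d hd]
  have h4 : e • a = d • b := hιi h3
  have h5 : e • a ∈ W₁ ⊓ W₂ := ⟨W₁.smul_mem e ha, by rw [h4]; exact W₂.smul_mem d hb⟩
  rw [h12, Submodule.mem_bot] at h5
  rw [h5, map_zero, hι, ← heb] at h3
  rw [Submodule.mem_bot]
  exact hinj e he v (hinj d hd _ h3.symm)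

end Pool.Agent.Helper56.NB
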